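import Pool.Agent.R755.KS.Mrg

/-!
# The KLS inequality (Cheeger form) is stable under fibrations

Q1, for sets `A` of measure one half, for the bodies of a class `Centred` which is closed under the following operations.

(A) Centred fibrations over a base of ARBITRARY dimension (`centred`, `centred'`). Let `K ⊂ ℝ^N × ℝ^M` be
a convex body, where `N` and `M` are arbitrary, such that
* every fibre `K_t = {x | (x, t) ∈ K}`, `t ∈ ℝ^M`, of positive volume belongs to the class and has
  its barycentre at the origin (or, after a translation and a linear change of coordinates, at a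
  point which is an affine function of `t`); there is no other condition on the way in which `K_t`
  depends on `t`;
* `Cov K_t ≤ q(t) Cov_x K` for a function `q` whose mean over `K` is at most `Q`
  (`AverageCovariance`);
* the marginal of `K` on `ℝ^M` satisfies a weak Poincare inequality for its linear images
  (`WeakPoincare`), or it is also a marginal of another body of the class, for instance of a body
  `K' ⊂ ℝ^{N'} × ℝ^M` whose fibres have the same volumes as those of `K`.
Then `K` belongs to the class: so the coordinates `x` can be integrated out, and the inequality for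
`K` follows from the ones for the fibres and for the marginal, with a constant which does not depend
on the dimensions. Products are a (trivial) example.

(B) Arbitrary fibrations over a base of bounded dimension (`fibred`): if all fibres (parallel
sections) `K_t`, `t ∈ ℝ^j`, `j ≤ d`, of the convex body `K ⊂ ℝ^N × ℝ^j` which have positive volume belong
to the class, then `K` belongs to the class. The fibres may be completely different from each other.

(C) Lifts and images: if one projection of `K`, with a kernel of dimension at most `r`, belongs to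
the class, then so does `K` (`lift`); the images of the bodies of the class under affine maps with
kernels of dimension at most `r` belong to the class (`image`).

The class starts with the convex bodies with `WeakPoincare A`, that is with weak Poincare
inequalities `Var v ≤ δ + A(δ) s E ‖∇ v‖²` for all linear images with variances at most `s`, all `δ > 0`
and `|v| ≤ 1`, where `A` is any function which is fixed in advance. All bodies of the class satisfy
such inequalities, with another function `A` (`weakPoincare`). Bodies with a Poincare inequality in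
isotropic position have `A(δ) = c₀ / (4 δ)`; the bodies `Section` (polytopes in `ℝ^m` with at most
`m + q` facets, unit balls of `ℓ_p` and their sections of codimension `q`) belong to the class for a
suitable `A` (`sections`), so it contains for instance all convex bodies in `ℝ^N × ℝ^d` whose fibres
over `ℝ^d` are polytopes with at most `N + q` facets.

(D) Products of symmetries. The first and the second condition of (A) are satisfied with `Q = 1` if
`K` is invariant under a group of isometries of `ℝ^N` which acts irreducibly on the first component. So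
KLS can be proved for products of symmetry groups, of different kinds and in different dimensions:
* `symmetric`: all convex bodies in `ℝ^{m_1} × ⋯ × ℝ^{m_h} × ℝ^d` which are
  invariant under groups `G_1, …, G_h`, each acting on its own component, if these are symmetries
  for which KLS is known (`KLSSymmetry`): no invariant vectors, no invariant quadratic forms but the
  multiples of `|x|²`, and KLS for the log-concave measures on `ℝ^{m_i}` invariant under `G_i`. The
  constant depends on `h`, `d` and the one for the `G_i`. The last component is arbitrary.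
* Known symmetries (from the starting files): the permutations and sign changes of `ℝ^m` (`cube`),
  the permutations of the vectors with sum zero (`sumZero`), the maps `X ↦ O X S` of `a × b` matrices,
  `b ≤ a`, with `O` orthogonal and `S` a signed permutation matrix (`rectangular`), the rotations of
  the symmetric `N × N` matrices of trace zero (`symmetricMatrices`).
For example all convex bodies in the space of tuples `(x, X, Y, t)`, `x ∈ ℝ^m`, `X` an
`a × b` matrix, `Y` a symmetric `N × N` matrix, `t ∈ ℝ^d`, which are invariant under `x ↦ S x`,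
`X ↦ O X S'` and `Y ↦ R Y Rᵀ` separately (the trace of `Y` is one more coordinate of `t`).

Method. Let `T` be a linear map on `K` with covariance at most `s`, `f` a Lipschitz function with
small constant. (1) For the fibre `K_t` let `Y_t = T(x, t) + √h Z`, with `x` uniform in `K_t`, `Z` Gaussian
and `h = C s` much larger than the covariances of the fibre, and `g(t) = E f(Y_t)`. For two fibres
`a, b` with the fibre `m` half way between them, the Prekopa-Leindler inequality gives
`Z_m² ≥ Z_a Z_b exp(h ‖∇σ‖²)` for the densities of `Y`, where `σ = log(Z_b / Z_a) / 2` (the densities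
times the inverse of the Gaussian are log-convex). So for the angle `ω` with `sin ω = tanh σ`:
`h E‖∇ω‖² ≤ 2 η + E ω²`, if `|K_m| ≤ (1 + η) √(|K_a| |K_b|)`. By an improved Poincare inequality for the
Gaussian, a weak Poincare inequality for the fibres and Stein's identity, `E ω²` is small if the means
of `Y_a` and `Y_b` are near to each other; so `g(a)` is near to `g(b)`. (2) In (B) a bounded number of
such steps leads to all fibres but a small part. In (A) the means are `T(0, t)`. Use the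
Prekopa-Leindler inequality in the base for the weights
`1_G(t) |K_t| exp(± ρ g(t) - ‖T(0, t) - y‖² / (2 h'))` with a small fixed `ρ`, where `G` is the set of the
good fibres: for two points `a`, `b` which are not as in (1) the middle point has a much larger
weight. So the variance of `g` given `T(0, t) + √h' Z = y` is small, for most `y`. The maximal
correlation between `t` and `T(0, t) + √h' Z` is small by the inequality for the marginal and Bessel's
inequality for Gaussian averages, so `g` has small variance. (3) This gives concentration for the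
Lipschitz functions of `T z + √h Z`, `z` uniform in `K`; the conditional expectation of a Lipschitz
function of `T z` is Lipschitz, with small conditional variance, by the Prekopa-Leindler inequality
again. (4) Concentration implies a weak Poincare inequality (heat flow), so that the argument can be
iterated; and it implies the isoperimetric inequality for sets of measure one half. (5) A convex body over a body of the class
with fibres of dimension at most `r`: the marginal has a concave density relative to the uniform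
measure (one dimension at a time), and the part of `T z` uncorrelated with the base has a bounded
total variance.

Formalised by the team (helpers 46, 62, 141, 157, 159, 168, 193, 258, 308, 339, 422, 436, 515, 560, 589, 600, 609,
670, 683, 699, 711, 746, 754, 755, 813, 834, 906, 916, 962) with the starting library.
-/

set_option autoImplicit false

namespace Pool.Agent.Results.MP_8d00da_gt.CentredFibrations

open MeasureTheory Set
open scoped ENNReal InnerProductSpace

/-- Euclidean space of dimension `n` -/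
abbrev Euc (n : ℕ) : Type := EuclideanSpace ℝ (Fin n)

/-- the uniform probability measure on `K` -/
noncomputable def unif {n : ℕ} (K : Set (Euc n)) : Measure (Euc n) :=
  (volume K)⁻¹ • volume.restrict K

/-- The inequalities `Var v(P x) ≤ δ + A(δ) s E ‖∇ v(P x)‖²` for all `δ > 0`, all linear images `P x` of
`x` (of law `μ`), all bounds `s` for the variances of the marginals of `P x` in directions of length
one, and all `C¹` functions `v` with `|v| ≤ 1` and bounded gradient. They follow, with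
`A(δ) = c₀ / (4 δ)`, from the Poincare inequality with constant `c₀` for `μ` in isotropic position. -/
def WeakPoincare (A : ℝ → ℝ) {M : ℕ} (μ : Measure (Euc M)) : Prop :=
  ∀ δ : ℝ, 0 < δ → ∀ (k : ℕ) (P : Euc M →ₗ[ℝ] Euc k) (s : ℝ), 0 < s →
  (∀ θ : Euc k, ‖θ‖ = 1 → ProbabilityTheory.variance (fun x => ⟪P x, θ⟫_ℝ) μ ≤ s) →
  ∀ (v : Euc k → ℝ) (C : ℝ), ContDiff ℝ 1 v → (∀ y, |v y| ≤ 1) → (∀ y, ‖fderiv ℝ v y‖ ≤ C) →
  ProbabilityTheory.variance (fun x => v (P x)) μ ≤ δ + A δ * s * ∫ x, ‖fderiv ℝ v (P x)‖ ^ 2 ∂μ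

/-- convex bodies -/
structure Body {n : ℕ} (K : Set (Euc n)) : Prop where
  comp : IsCompact K
  conv : Convex ℝ K
  int : (interior K).Nonempty

/-- the component in `ℝ^N` of a point of `ℝⁿ ≅ ℝ^N × ℝ^M` -/
def fst {N M n : ℕ} (e : (Euc N × Euc M) ≃ₗ[ℝ] Euc n) (z : Euc n) : Euc N := (e.symm z).1

/-- the component in `ℝ^M` of a point of `ℝⁿ ≅ ℝ^N × ℝ^M` -/
def snd {N M n : ℕ} (e : (Euc N × Euc M) ≃ₗ[ℝ] Euc n) (z : Euc n) : Euc M := (e.symm z).2

/-- the fibre over `t` of the set `K ⊂ ℝⁿ ≅ ℝ^N × ℝ^M` -/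
def fibre {N M n : ℕ} (e : (Euc N × Euc M) ≃ₗ[ℝ] Euc n) (K : Set (Euc n)) (t : Euc M) :
    Set (Euc N) := {x | e (x, t) ∈ K}

/-- the law on `ℝ^M` of the second component of a point uniformly distributed in `K` -/
noncomputable def marginal {N M n : ℕ} (e : (Euc N × Euc M) ≃ₗ[ℝ] Euc n) (K : Set (Euc n)) :
    Measure (Euc M) := Measure.map (snd e) (unif K)

/-- the fibres of positive volume have their barycentre at the origin -/
def CentredFibres {N M n : ℕ} (e : (Euc N × Euc M) ≃ₗ[ℝ] Euc n) (K : Set (Euc n)) : Prop :=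
  ∀ t, volume (fibre e K t) ≠ 0 → ∀ θ, ∫ x, ⟪x, θ⟫_ℝ ∂(unif (fibre e K t)) = 0

/-- `E_t ⟪x, θ⟫² ≤ q(t) E ⟪x, θ⟫²` for all `θ ∈ ℝ^N`, for a function `q ≥ 0` on `ℝ^M` with mean at most
`Q`; here `E` is the mean over `K ⊂ ℝ^N × ℝ^M` and `E_t` the mean over the fibre over `t` -/
def AverageCovariance {N M n : ℕ} (Q : ℝ) (e : (Euc N × Euc M) ≃ₗ[ℝ] Euc n) (K : Set (Euc n)) :
    Prop :=
  ∃ q : Euc M → ℝ, Measurable q ∧ (∀ t, 0 ≤ q t) ∧
    Integrable (fun z => q (snd e z)) (unif K) ∧ ∫ z, q (snd e z) ∂(unif K) ≤ Q ∧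
    ∀ t, volume (fibre e K t) ≠ 0 → ∀ θ : Euc N, ∫ x, ⟪x, θ⟫_ℝ ^ 2 ∂(unif (fibre e K t)) ≤
      q t * ∫ z, ⟪fst e z, θ⟫_ℝ ^ 2 ∂(unif K)

/-- The class of bodies. It contains the convex bodies whose uniform measure satisfies
`WeakPoincare A` (`base`). Bodies of depth `h + 1` are obtained from those of depth `h` by
* images under affine maps with kernels of dimension at most `r` (`image`), and adding at most `r`
  dimensions (`lift`: all convex bodies `K` with a linear image, under a map with a kernel of dimension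
  at most `r`, of depth `h`);
* `fibred`: all convex bodies `K ⊂ ℝ^N × ℝ^j`, `j ≤ d`, whose fibres over the points of `ℝ^j` are of
  depth `h` or of volume zero;
* all convex bodies `K ⊂ ℝ^N × ℝ^M`, for any `M`, whose fibres over the points of `ℝ^M` are of volume
  zero or of depth `h` with barycentre zero, such that `AverageCovariance Q` holds and the law of the
  second component satisfies `WeakPoincare A` (`centred`) or is the law of a linear image of a body
  `K'` of depth `h` (`centred'`). -/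
inductive Centred (A : ℝ → ℝ) (Q : ℝ) (d r : ℕ) : ℕ → ∀ {n : ℕ}, Set (Euc n) → Prop
  | base {n : ℕ} {K : Set (Euc n)} : Body K → WeakPoincare A (unif K) → Centred A Q d r 0 K
  | up {h n : ℕ} {K : Set (Euc n)} : Centred A Q d r h K → Centred A Q d r (h + 1) K
  | image {h m n : ℕ} {K : Set (Euc m)} (T : Euc m →ₗ[ℝ] Euc n) (w : Euc n) : m ≤ n + r →
      Function.Surjective T → Centred A Q d r h K →
      Centred A Q d r (h + 1) ((fun x => w + T x) '' K)
  | lift {h m n : ℕ} {K : Set (Euc m)} (T : Euc m →ₗ[ℝ] Euc n) : m ≤ n + r →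
      Function.Surjective T → Body K → Centred A Q d r h (T '' K) → Centred A Q d r (h + 1) K
  | fibred {h N j n : ℕ} {K : Set (Euc n)} (e : (Euc N × Euc j) ≃ₗ[ℝ] Euc n) : j ≤ d → Body K →
      (∀ t, volume (fibre e K t) ≠ 0 → Centred A Q d r h (fibre e K t)) →
      Centred A Q d r (h + 1) K
  | centred {h N M n : ℕ} {K : Set (Euc n)} (e : (Euc N × Euc M) ≃ₗ[ℝ] Euc n) : Body K →
      (∀ t, volume (fibre e K t) ≠ 0 → Centred A Q d r h (fibre e K t)) → CentredFibres e K →
      AverageCovariance Q e K → WeakPoincare A (marginal e K) → Centred A Q d r (h + 1) K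
  | centred' {h N M n m : ℕ} {K : Set (Euc n)} (e : (Euc N × Euc M) ≃ₗ[ℝ] Euc n)
      {K' : Set (Euc m)} (L : Euc m →ₗ[ℝ] Euc M) : Body K →
      (∀ t, volume (fibre e K t) ≠ 0 → Centred A Q d r h (fibre e K t)) → CentredFibres e K →
      AverageCovariance Q e K → Centred A Q d r h K' → marginal e K = Measure.map L (unif K') →
      Centred A Q d r (h + 1) K

/-- Minkowski (exterior) boundary measure `μ⁺(A)` -/
noncomputable def bdry {n : ℕ} (μ : Measure (Euc n)) (A : Set (Euc n)) : ℝ≥0∞ :=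
  Filter.liminf (fun ε : ℝ => (μ (Metric.thickening ε A) - μ A) / ENNReal.ofReal ε)
    (nhdsWithin 0 (Set.Ioi 0))

/-- the halfspace `⟪u, x⟫ ≤ b` -/
def halfspace {n : ℕ} (u : Euc n) (b : ℝ) : Set (Euc n) := {x | inner ℝ u x ≤ b}

/-- the inequality of Kannan, Lovasz and Simonovits with constant `c` for the uniform measure `μ` on
`K` and sets of measure one half: if `t min(μ H, 1 - μ H) ≤ μ⁺(H)` for all halfspaces `H` then
`c t min(μ A, 1 - μ A) ≤ μ⁺(A)` for all measurable `A` with `μ A = 1/2` -/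
def KLSHalf {n : ℕ} (c : ℝ) (K : Set (Euc n)) : Prop :=
  ∀ t : ℝ≥0∞, (∀ (u : Euc n) (b : ℝ), u ≠ 0 →
      t * min (unif K (halfspace u b)) (1 - unif K (halfspace u b)) ≤
        bdry (unif K) (halfspace u b)) →
    ∀ A : Set (Euc n), MeasurableSet A → unif K A = 1 / 2 →
      ENNReal.ofReal c * t * min (unif K A) (1 - unif K A) ≤ bdry (unif K) A

theorem unif_prob {n : ℕ} {K : Set (Euc n)} (h1 : IsCompact K) (h3 : (interior K).Nonempty) :
    IsProbabilityMeasure (unif K) :=
  Pool.Agent.R754.KG.un_prob (Pool.Agent.R755.KF.vol_ne h3) h1.measure_lt_top.ne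

theorem ct_of {A : ℝ → ℝ} {Q : ℝ} {d r h n : ℕ} {K : Set (Euc n)} (H : Centred A Q d r h K) :
    Pool.Agent.R755.KS.Ct A Q d r h n K := by
  induction H with
  | base hb h4 =>
    obtain ⟨h1, h2, h3⟩ := hb
    have hp := unif_prob h1 h3
    obtain ⟨B, hB⟩ := Pool.Agent.R755.KS.un_bdd h1
    exact .base _ _ h1 h2 h3 (Pool.Agent.R755.KS.km_of_wpf (μ := unif _) hB h4)
  | up _ ih => exact .up _ _ _ ih
  | image T w hm hT _ ih => exact .image _ _ _ _ T w hm hT ih
  | lift T hm hT hb _ ih => exact .lift _ _ _ _ T hm hT hb.comp hb.conv hb.int ih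
  | fibred e hj hb _ ih => exact .fibred _ _ _ _ _ e hj hb.comp hb.conv hb.int ih
  | centred e hbd _ hcen hac hb ih =>
    obtain ⟨h1, h2, h3⟩ := hbd
    have hF := Pool.Agent.R755.KS.cb_pre e h1 h2 h3
    have hp := Pool.Agent.R755.KS.bl_prob hF
    obtain ⟨B, hB⟩ := Pool.Agent.R755.KS.bl_bdd hF
    have hb' : Pool.Agent.R755.KS.WPf A _ := hb
    have hl := Pool.Agent.R755.KS.law_eq e hF
    have hb2 := Eq.mp (congrArg (Pool.Agent.R755.KS.WPf A) hl) hb'
    exact .cent _ _ _ _ _ e h1 h2 h3 ih hcen ((Pool.Agent.R755.KS.ac_iff Q e _ hF).1 hac)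
      (Pool.Agent.R755.KS.km_of_wpf hB hb2)
  | centred' e L hbd _ hcen hac _ hb ih ih' =>
    obtain ⟨h1, h2, h3⟩ := hbd
    have hF := Pool.Agent.R755.KS.cb_pre e h1 h2 h3
    have hl := Pool.Agent.R755.KS.law_eq e hF
    exact .cent' _ _ _ _ _ _ e _ L h1 h2 h3 ih hcen ((Pool.Agent.R755.KS.ac_iff Q e _ hF).1 hac)
      ih' (hl.symm.trans hb)

theorem of_ct {A : ℝ → ℝ} {Q : ℝ} {d r h n : ℕ} {K : Set (Euc n)}
    (H : Pool.Agent.R755.KS.Ct A Q d r h n K) : Centred A Q d r h K := by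
  induction H with
  | base _ _ h1 h2 h3 h4 =>
    have hp := unif_prob h1 h3
    obtain ⟨B, hB⟩ := Pool.Agent.R755.KS.un_bdd h1
    exact .base ⟨h1, h2, h3⟩ (Pool.Agent.R755.KS.wpf_of_km (μ := unif _) hB h4)
  | up _ _ _ _ ih => exact .up ih
  | image _ _ _ _ T w hm hT _ ih => exact .image T w hm hT ih
  | lift _ _ _ _ T hm hT h1 h2 h3 _ ih => exact .lift T hm hT ⟨h1, h2, h3⟩ ih
  | fibred _ _ _ _ _ e hj h1 h2 h3 _ ih => exact .fibred e hj ⟨h1, h2, h3⟩ ih
  | cent _ _ _ _ _ e h1 h2 h3 _ hcen hq hb ih =>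
    have hF := Pool.Agent.R755.KS.cb_pre e h1 h2 h3
    have hp := Pool.Agent.R755.KS.bl_prob hF
    obtain ⟨B, hB⟩ := Pool.Agent.R755.KS.bl_bdd hF
    have hl := Pool.Agent.R755.KS.law_eq e hF
    have hb2 := Pool.Agent.R755.KS.wpf_of_km hB hb
    rw [← hl] at hb2
    exact .centred e ⟨h1, h2, h3⟩ ih hcen ((Pool.Agent.R755.KS.ac_iff Q e _ hF).2 hq) hb2
  | cent' _ _ _ _ _ _ e _ L h1 h2 h3 _ hcen hq _ hb ih ih' =>
    have hF := Pool.Agent.R755.KS.cb_pre e h1 h2 h3
    have hl := Pool.Agent.R755.KS.law_eq e hF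
    exact .centred' e L ⟨h1, h2, h3⟩ ih hcen ((Pool.Agent.R755.KS.ac_iff Q e _ hF).2 hq) ih'
      (hl.trans hb)

/-- **KLS (Cheeger form) is stable under fibrations.** For all functions `A : ℝ → ℝ`, `Q > 0` and
`d, r, h` there is a constant `c > 0` such that all bodies of the class `Centred A Q d r h`, of any
dimension, satisfy the inequality of Kannan, Lovasz and Simonovits with constant `c` for all sets of
measure one half. -/
theorem result : ∀ (A : ℝ → ℝ) (Q : ℝ) (d r h : ℕ), 0 < Q → ∃ c : ℝ, 0 < c ∧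
    ∀ (n : ℕ) (K : Set (Euc n)), Centred A Q d r h K → KLSHalf c K := by
  intro A Q d r h hQ
  obtain ⟨c, hc, H⟩ := Pool.Agent.R755.KS.ctR A Q hQ d r h
  obtain ⟨c', hc', H'⟩ := Pool.Agent.Y532.PV.che c hc
  refine ⟨c', hc', fun n K hK => ?_⟩
  obtain ⟨h1, h2, h3, h4⟩ := H n K (ct_of hK)
  intro t ht A hA hA2
  have hprob : IsProbabilityMeasure (unif K) :=
    Pool.Agent.Y506.KS.unif_prob (Pool.Agent.Y506.PV.vol_pos h3) h1.measure_lt_top.ne
  have key := H' n _ h1 h2 h3 h4 (unif K) rfl t ht A hA2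
  refine le_trans ?_ key
  calc ENNReal.ofReal c' * t * min (unif K A) (1 - unif K A)
      ≤ ENNReal.ofReal c' * t * 1 := mul_le_mul_right ((min_le_left _ _).trans prob_le_one) _
    _ = _ := mul_one _

/-- all bodies of the class satisfy weak Poincare inequalities -/
theorem weakPoincare : ∀ (A : ℝ → ℝ) (Q : ℝ) (d r h : ℕ), 0 < Q → ∃ A' : ℝ → ℝ, ∀ (n : ℕ)
    (K : Set (Euc n)), Centred A Q d r h K → Body K ∧ WeakPoincare A' (unif K) := by
  intro A Q d r h hQ
  obtain ⟨A', -, H⟩ := Pool.Agent.R755.KS.ct_km A Q hQ d r h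
  refine ⟨A', fun n K hK => ?_⟩
  obtain ⟨h1, h2, h3, h4⟩ := H n K (ct_of hK)
  have hp := unif_prob h1 h3
  obtain ⟨B, hB⟩ := Pool.Agent.R755.KS.un_bdd h1
  exact ⟨⟨h1, h2, h3⟩, Pool.Agent.R755.KS.wpf_of_km (μ := unif K) hB h4⟩

/-! ### polytopes with few facets, unit balls of `ℓ_p` -/

/-- convex body `D = -D`: compact, convex, symmetric, with nonempty interior -/
structure SymmetricBody {k : ℕ} (D : Set (Euc k)) : Prop where
  conv : Convex ℝ D
  comp : IsCompact D
  int : (interior D).Nonempty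
  symm : ∀ x ∈ D, -x ∈ D

/-- `a (s₊)^p + b (s₋)^p`, where `a, b ∈ [0, ∞]` and `∞ · 0 = 0` -/
noncomputable def power (p : ℝ) (a b : ℝ≥0∞) (s : ℝ) : ℝ≥0∞ :=
  a * ENNReal.ofReal (max s 0 ^ p) + b * ENNReal.ofReal (max (-s) 0 ^ p)

/-- `K = {x | ⟪v_i, x⟫ ∈ I_i for all i < N}` with closed intervals `I_i` (which may be unbounded),
`N ≤ m + q`: intersections of `m + q` halfspaces or slabs in `ℝ^m` -/
def Slabs (q : ℕ) {m : ℕ} (K : Set (Euc m)) : Prop :=
  ∃ (N : ℕ) (v : Fin N → Euc m) (I : Fin N → Set ℝ), N ≤ m + q ∧ (∀ i, IsClosed (I i)) ∧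
    (∀ i, (I i).OrdConnected) ∧ K = {x | ∀ i, ⟪v i, x⟫_ℝ ∈ I i}

/-- `K = {x | ∑_{i < N} (a_i ⟪v_i, x⟫₊^p + b_i ⟪v_i, x⟫₋^p) ≤ 1}`, `a_i, b_i ∈ [0, ∞]`, `N ≤ m + q` -/
def Sums (p : ℝ) (q : ℕ) {m : ℕ} (K : Set (Euc m)) : Prop :=
  ∃ (N : ℕ) (v : Fin N → Euc m) (a b : Fin N → ℝ≥0∞), N ≤ m + q ∧
    K = {x | ∑ i, power p (a i) (b i) ⟪v i, x⟫_ℝ ≤ 1}

/-- `K = {x | ∑_{j < k_i} |ℓ_ij(x)|^{e_ij} ≤ 1 for all i < M}`, `e_ij ≥ 2`, `∑ k_i ≤ m + q` -/
def Powers (q : ℕ) {m : ℕ} (K : Set (Euc m)) : Prop :=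
  ∃ (M : ℕ) (k : Fin M → ℕ) (e : ∀ i, Fin (k i) → ℝ) (l : ∀ i, Fin (k i) → (Euc m →ₗ[ℝ] ℝ)),
    (∀ i, 1 ≤ k i) ∧ ∑ i, k i ≤ m + q ∧ (∀ i j, 2 ≤ e i j) ∧
    K = {x | ∀ i, ∑ j, |l i j x| ^ e i j ≤ 1}

/-- `K = {x | Q_i x ∈ D_i for all i < M}` with linear maps `Q_i : ℝ^m → ℝ^{k_i}` and symmetric convex
bodies `D_i`, `k_i ≤ B`, `∑ k_i ≤ m + q` -/
def Blocks (B q : ℕ) {m : ℕ} (K : Set (Euc m)) : Prop :=
  ∃ (M : ℕ) (k : Fin M → ℕ) (Q : ∀ i, Euc m →ₗ[ℝ] Euc (k i)) (D : ∀ i, Set (Euc (k i))),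
    (∀ i, k i ≤ B) ∧ ∑ i, k i ≤ m + q ∧ (∀ i, SymmetricBody (D i)) ∧ K = {x | ∀ i, Q i x ∈ D i}

/-- the bodies at the bottom of the construction: bounded, with nonempty interior, and of one of the
four kinds `Slabs`, `Sums`, `Powers`, `Blocks`, with at most `q` functionals more than the
dimension (for instance cubes, Euclidean balls, simplices, polytopes with few facets) -/
structure Section (B q : ℕ) (p : ℝ) {m : ℕ} (K : Set (Euc m)) : Prop where
  bdd : Bornology.IsBounded K
  int : (interior K).Nonempty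
  rep : Slabs q K ∨ Sums p q K ∨ Powers q K ∨ Blocks B q K

theorem base_of {B q : ℕ} {p : ℝ} {m : ℕ} {K : Set (Euc m)} (h : Section B q p K) :
    Pool.Agent.Y506.PV.Base q B p K := by
  refine ⟨h.bdd, h.int, ?_⟩
  rcases h.rep with h | h | h | h
  · obtain ⟨N, v, I, hN, hI1, hI2, hK⟩ := h
    exact Or.inl ⟨N, hN, v, I, hI1, hI2, hK⟩
  · obtain ⟨N, v, a, b, hN, hK⟩ := h
    exact Or.inr (Or.inl ⟨N, hN, v, a, b, hK⟩)
  · obtain ⟨M, k, e, l, hk, hs, he, hK⟩ := h
    refine Or.inr (Or.inr (Or.inl ⟨M, k, hs, hk, e, fun i j =>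
      LinearMap.toContinuousLinearMap (l i j), he, ?_⟩))
    rw [hK]
    rfl
  · obtain ⟨M, k, Q, D, hk, hs, hD, hK⟩ := h
    refine Or.inr (Or.inr (Or.inr ⟨M, k, hs, hk, fun i => LinearMap.toContinuousLinearMap (Q i),
      D, fun i => ⟨(hD i).comp.measurableSet, (hD i).conv, (hD i).comp.isBounded, (hD i).symm,
        (hD i).int⟩, fun i => (hD i).comp.isClosed, ?_⟩))
    rw [hK]
    rfl

/-- polytopes with few facets, `ℓ_p` balls and their sections are in the class, for a suitable `A` -/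
theorem sections : ∀ (q B : ℕ) (p : ℝ), 1 ≤ p → ∃ A : ℝ → ℝ, ∀ (Q : ℝ) (d r m : ℕ)
    (K : Set (Euc m)), Section B q p K → Centred A Q d r 0 K := by
  intro q B p hp
  obtain ⟨A, -, H⟩ := Pool.Agent.R755.KS.base_km q B p 1 hp one_pos
  exact ⟨A, fun Q d r m K hK => of_ct (Pool.Agent.R755.KS.cm_ct H Q (.base _ _ (base_of hK)))⟩

/-! ### products of symmetries -/

/-- log-concave densities with bounded support, invariant under the isometries in `G` -/
structure InvariantDensity {m : ℕ} (G : Set (Euc m ≃ₗᵢ[ℝ] Euc m)) (w : Euc m → ℝ) : Prop where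
  meas : Measurable w
  nonneg : ∀ x, 0 ≤ w x
  logc : ∀ x y, ∀ t : ℝ, 0 < t → t < 1 → w x ^ (1 - t) * w y ^ t ≤ w ((1 - t) • x + t • y)
  supp : ∃ R : ℝ, ∀ x, R < ‖x‖ → w x = 0
  inv : ∀ g ∈ G, ∀ x, w (g x) = w x

/-- symmetries for which KLS is known, with constant `c₀`: the set `G` of isometries of `ℝ^m` has no
common invariant vector but `0`, only the multiples of the identity as common invariant quadratic
forms, and all log-concave probability measures `μ` invariant under `G` satisfy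
`(Var f)² ≤ c₀ σ² E ‖∇ f‖²`, `σ² = E ‖x‖² / m`, for `C¹` functions with `|f| ≤ 1` -/
structure KLSSymmetry (c₀ : ℝ) {m : ℕ} (G : Set (Euc m ≃ₗᵢ[ℝ] Euc m)) : Prop where
  noFixed : ∀ v : Euc m, (∀ g ∈ G, g v = v) → v = 0
  scalar : ∀ A : Euc m →ₗ[ℝ] Euc m, A.IsSymmetric → (∀ g ∈ G, ∀ x, g (A x) = A (g x)) →
    ∃ c : ℝ, ∀ x, A x = c • x
  kls : ∀ w : Euc m → ℝ, InvariantDensity G w → ∀ μ : Measure (Euc m),
    μ = volume.withDensity (fun x => ENNReal.ofReal (w x)) → IsProbabilityMeasure μ →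
    ∀ f : Euc m → ℝ, ContDiff ℝ 1 f → (∀ x, |f x| ≤ 1) →
    ProbabilityTheory.variance f μ ^ 2 ≤
      c₀ * ((∫ x, ‖x‖ ^ 2 ∂μ) / m) * ∫ x, ‖fderiv ℝ f x‖ ^ 2 ∂μ

theorem kg_of {c₀ : ℝ} {m : ℕ} {G : Set (Euc m ≃ₗᵢ[ℝ] Euc m)} (h : KLSSymmetry c₀ G) :
    Pool.Agent.R755.KS.KG c₀ G :=
  ⟨h.noFixed, h.scalar, fun w hw => h.kls w ⟨hw.meas, hw.nn, hw.logc, hw.supp, hw.inv⟩⟩

theorem of_kg {c₀ : ℝ} {m : ℕ} {G : Set (Euc m ≃ₗᵢ[ℝ] Euc m)}
    (h : Pool.Agent.R755.KS.KG c₀ G) : KLSSymmetry c₀ G :=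
  ⟨h.mean, h.scal, fun w hw => h.kls w ⟨hw.meas, hw.nonneg, hw.logc, hw.supp, hw.inv⟩⟩

/-- the convex body `K ⊂ ℝ^{m_1} × ⋯ × ℝ^{m_h} × ℝ^d ≅ ℝⁿ` is invariant under the maps
`(x_1, …, x_h, t) ↦ (x_1, …, g x_i, …, x_h, t)`, `g ∈ G_i`, for all `i` -/
structure SymmetricIn {h d n : ℕ} {m : Fin h → ℕ} (G : ∀ i, Set (Euc (m i) ≃ₗᵢ[ℝ] Euc (m i)))
    (e : ((∀ i, Euc (m i)) × Euc d) ≃ₗ[ℝ] Euc n) (K : Set (Euc n)) : Prop where
  comp : IsCompact K
  conv : Convex ℝ K
  int : (interior K).Nonempty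
  inv : ∀ i, ∀ g ∈ G i, ∀ z t, e (z, t) ∈ K ↔ e (Function.update z i (g (z i)), t) ∈ K

/-- the bodies with a product of KLS symmetries belong to the class -/
theorem symmetric_mem {c₀ Q : ℝ} (hc₀ : 0 < c₀) {h d n : ℕ} (r : ℕ) (hQ : (h : ℝ) + 1 ≤ Q)
    {m : Fin h → ℕ} {G : ∀ i, Set (Euc (m i) ≃ₗᵢ[ℝ] Euc (m i))} (hG : ∀ i, KLSSymmetry c₀ (G i))
    {e : ((∀ i, Euc (m i)) × Euc d) ≃ₗ[ℝ] Euc n} {K : Set (Euc n)} (hK : SymmetricIn G e K) :
    Centred (fun δ => c₀ / (4 * δ)) Q d r (h + 1) K :=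
  of_ct (Pool.Agent.R755.KS.cs_ct r (Pool.Agent.R755.KS.all_mem Pool.Agent.R755.KS.qciR
    Pool.Agent.R755.KS.kgbR c₀ hc₀ d h Q hQ n m G e (fun i => kg_of (hG i)) K hK.comp hK.conv
    hK.int hK.inv))

/-- **Products of symmetries.** For all `h`, `d`, `c₀ > 0` there is `c > 0` such that all convex bodies
`K ⊂ ℝ^{m_1} × ⋯ × ℝ^{m_h} × ℝ^d`, of any dimensions `m_i`, which are invariant under KLS symmetries
`G_1, …, G_h` of the first `h` components satisfy the inequality. -/
theorem symmetric : ∀ (h d : ℕ) (c₀ : ℝ), 0 < c₀ → ∃ c : ℝ, 0 < c ∧ ∀ (n : ℕ) (m : Fin h → ℕ)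
    (G : ∀ i, Set (Euc (m i) ≃ₗᵢ[ℝ] Euc (m i))) (e : ((∀ i, Euc (m i)) × Euc d) ≃ₗ[ℝ] Euc n)
    (K : Set (Euc n)), (∀ i, KLSSymmetry c₀ (G i)) → SymmetricIn G e K → KLSHalf c K := by
  intro h d c₀ hc₀
  obtain ⟨c, hc, H⟩ := result (fun δ => c₀ / (4 * δ)) (h + 1) d 0 (h + 1) (by positivity)
  exact ⟨c, hc, fun n m G e K hG hK => H n K (symmetric_mem hc₀ 0 le_rfl hG hK)⟩

/-- permutations and sign changes of the coordinates -/
def cubeGroup (m : ℕ) : Set (Euc m ≃ₗᵢ[ℝ] Euc m) :=
  {g | ∃ (σ : Equiv.Perm (Fin m)) (ε : Fin m → ℝ), (∀ i, ε i = 1 ∨ ε i = -1) ∧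
    ∀ x i, g x i = ε i * x (σ i)}

theorem cube : ∃ c₀ : ℝ, 0 < c₀ ∧ ∀ m : ℕ, KLSSymmetry c₀ (cubeGroup m) := by
  obtain ⟨c₀, hc₀, H⟩ := Pool.Agent.R755.KS.cube_kg
  exact ⟨c₀, hc₀, fun m => of_kg (H m)⟩

/-- the maps `X ↦ O X S` of `a × b` matrices, `O` orthogonal, `S` a signed permutation matrix, in
orthonormal coordinates `ψ` of the space of the matrices -/
def rectangularGroup {a b : ℕ} (ψ : EuclideanSpace ℝ (Fin a × Fin b) ≃ₗᵢ[ℝ] Euc (a * b)) :
    Set (Euc (a * b) ≃ₗᵢ[ℝ] Euc (a * b)) :=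
  {g | ∃ O ∈ Matrix.orthogonalGroup (Fin a) ℝ, ∃ (σ : Equiv.Perm (Fin b))
    (ε : Fin b → ℝ), (∀ j, ε j = 1 ∨ ε j = -1) ∧ ∀ X i j, (ψ.symm (g (ψ X))) (i, j) =
    ∑ k, O i k * (ε j * X (k, σ j))}

theorem rectangular : ∃ c₀ : ℝ, 0 < c₀ ∧ ∀ (a b : ℕ)
    (ψ : EuclideanSpace ℝ (Fin a × Fin b) ≃ₗᵢ[ℝ] Euc (a * b)), 3 ≤ a → b ≤ a →
    KLSSymmetry c₀ (rectangularGroup ψ) := by
  obtain ⟨c₀, hc₀, H⟩ := Pool.Agent.R755.KS.rect_kg
  exact ⟨c₀, hc₀, fun a b ψ h1 h2 => of_kg (H a b ψ h1 h2)⟩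

/-- the permutations of the coordinates of the vectors with sum zero in `ℝ^{n+1}`, in orthonormal
coordinates `ι` of the space of these vectors -/
def sumZeroGroup {n : ℕ} (ι : Euc n →ₗᵢ[ℝ] Euc (n + 1)) : Set (Euc n ≃ₗᵢ[ℝ] Euc n) :=
  {g | ∃ σ : Equiv.Perm (Fin (n + 1)), ∀ x i, ι (g x) i = ι x (σ i)}

theorem sumZero : ∃ c₀ : ℝ, 0 < c₀ ∧ ∀ (n : ℕ) (ι : Euc n →ₗᵢ[ℝ] Euc (n + 1)),
    (∀ x, ∑ i, ι x i = 0) → KLSSymmetry c₀ (sumZeroGroup ι) := by
  obtain ⟨c₀, hc₀, H⟩ := Pool.Agent.R755.KS.perm_kg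
  exact ⟨c₀, hc₀, fun n ι h => of_kg (H n ι h)⟩

/-- the maps `X ↦ R X Rᵀ`, `R` a rotation, of the symmetric `N × N` matrices of trace zero, in
orthonormal coordinates `ι` of the space of these matrices -/
def rotationGroup {N k : ℕ} (ι : Euc k →ₗᵢ[ℝ] EuclideanSpace ℝ (Fin N × Fin N)) :
    Set (Euc k ≃ₗᵢ[ℝ] Euc k) :=
  {g | ∃ R : Matrix (Fin N) (Fin N) ℝ, R * R.transpose = 1 ∧ R.det = 1 ∧ ∀ x i j,
    ι (g x) (i, j) = (R * (Matrix.of fun a b => ι x (a, b)) * R.transpose) i j}

theorem symmetricMatrices : ∃ c₀ : ℝ, 0 < c₀ ∧ ∀ (N k : ℕ)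
    (ι : Euc k →ₗᵢ[ℝ] EuclideanSpace ℝ (Fin N × Fin N)), 3 ≤ N →
    (∀ X, (∃ x, ι x = X) ↔ (∀ i j, X (i, j) = X (j, i)) ∧ ∑ i, X (i, i) = 0) →
    KLSSymmetry c₀ (rotationGroup ι) := by
  obtain ⟨c₀, hc₀, H⟩ := Pool.Agent.R755.KS.sym_kg
  exact ⟨c₀, hc₀, fun N k ι h1 h2 => of_kg (H N k ι h1 h2)⟩

end Pool.Agent.Results.MP_8d00da_gt.CentredFibrations
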