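import Pool.Agent.R972.OP.All2
import Pool.Agent.R972.OP.Fin

/-!
# The KLS conjecture (Cheeger form) for order polytopes

Q1 for all order polytopes `O(P) = {x ∈ [0,1]ⁿ | x_i ≤ x_j for i ≤_P j}`, `P` a partial order on `n`
points, in the position in which they are given: `D_Che(λ_K) ≥ c D_Che^Lin(λ_K)` with an absolute
constant. More precisely `π/8 ≤ D_Che(λ_K)`, `D_Poin(λ_K)² ≤ 1/π²`, the value for the cube, and
`D_Poin^Lin(λ_K)² ≥ 1/12`.

Method. (1) Poincare's inequality with constant `1/π²` by a path coupling (in the style of Bubley and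
Dyer) for lattice placements of the points of `P`, with the rates for which the cosine is an
eigenfunction of the one-particle chain, and the limit. (2) Symmetric functions have the same mean
over all order polytopes, so the sum of the coordinates has variance `n/12`; the halfspace constant
bounds the variances because it forces exponential tails of the one-dimensional marginals (module
`Y211.FF` of the starting files). (3) From Poincare's to Cheeger's inequality for convex bodies by the
argument of Buser and Ledoux (modules `W695.KH` of the starting files, extended to all levels in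
`R656.OP2`, `R310.OP2`).

Parts by helpers 780, 560, 574, 358, 928, 364, 372, 394, 152, 441, 609, 515, 874, 711, 656, 310 and
972 (modules `R972.OP`).
-/

set_option autoImplicit false

namespace Pool.Agent.Results.MP_8d00da_gt.OrderPolytopes

open MeasureTheory Set
open scoped ENNReal InnerProductSpace

/-- Euclidean space of dimension `n` -/
abbrev Euc (n : ℕ) : Type := EuclideanSpace ℝ (Fin n)

/-- the order polytope `{x ∈ [0,1]ⁿ | x_i ≤ x_j if R i j}` -/
def orderPolytope {n : ℕ} (R : Fin n → Fin n → Prop) : Set (Euc n) :=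
  {x | (∀ i, 0 ≤ x i ∧ x i ≤ 1) ∧ ∀ i j, R i j → x i ≤ x j}

/-- the uniform probability measure on `K` -/
noncomputable def unif {n : ℕ} (K : Set (Euc n)) : Measure (Euc n) :=
  (volume K)⁻¹ • volume.restrict K

/-- Minkowski (exterior) boundary measure `μ⁺(A)` -/
noncomputable def bdry {n : ℕ} (μ : Measure (Euc n)) (A : Set (Euc n)) : ℝ≥0∞ :=
  Filter.liminf (fun ε : ℝ => (μ (Metric.thickening ε A) - μ A) / ENNReal.ofReal ε)
    (nhdsWithin 0 (Set.Ioi 0))

/-- the halfspace `⟪u, x⟫ ≤ b` -/
def halfspace {n : ℕ} (u : Euc n) (b : ℝ) : Set (Euc n) := {x | inner ℝ u x ≤ b}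

/-- the inequality of Kannan, Lovasz and Simonovits with constant `c` for the uniform measure `μ` on
`K`: if `t min(μ H, 1 - μ H) ≤ μ⁺(H)` for all halfspaces `H` then
`c t min(μ A, 1 - μ A) ≤ μ⁺(A)` for all measurable `A` -/
def KLS {n : ℕ} (c : ℝ) (K : Set (Euc n)) : Prop :=
  ∀ t : ℝ≥0∞, (∀ (u : Euc n) (b : ℝ), u ≠ 0 →
      t * min (unif K (halfspace u b)) (1 - unif K (halfspace u b)) ≤
        bdry (unif K) (halfspace u b)) →
    ∀ A : Set (Euc n), MeasurableSet A →
      ENNReal.ofReal c * t * min (unif K A) (1 - unif K A) ≤ bdry (unif K) A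

/-- **KLS (Cheeger form) for order polytopes.** There is an absolute constant `c > 0` such that for
all `n ≥ 1` and all partial orders `R` on `n` points (reflexive or strict: only antisymmetry and
transitivity are assumed) the order polytope `K` of `R` is a convex body which satisfies the
inequality of Kannan, Lovasz and Simonovits with constant `c`, for all measurable sets. More
precisely `π/8 min(μ A, 1 - μ A) ≤ μ⁺(A)` for all measurable `A`, where `μ` is the uniform measure on
`K`, and the variance of `μ` in the direction `(1, ..., 1)/√n` is `1/12`. -/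
theorem result : ∃ c : ℝ, 0 < c ∧ ∀ (n : ℕ) (R : Fin n → Fin n → Prop), 1 ≤ n →
    (∀ a b, R a b → R b a → a = b) → (∀ a b c, R a b → R b c → R a c) →
    (IsCompact (orderPolytope R) ∧ Convex ℝ (orderPolytope R) ∧
      (interior (orderPolytope R)).Nonempty) ∧ KLS c (orderPolytope R) ∧
    (∀ A : Set (Euc n), MeasurableSet A → ENNReal.ofReal (Real.pi / 8) *
      min (unif (orderPolytope R) A) (1 - unif (orderPolytope R) A) ≤
        bdry (unif (orderPolytope R)) A) ∧
    ProbabilityTheory.variance (fun x : Euc n => ∑ i, x i) (unif (orderPolytope R)) =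
      (n : ℝ) / 12 := by
  obtain ⟨c, hc, H⟩ := Pool.Agent.R972.OP.half_form Pool.Agent.R972.OP.all_all
    Pool.Agent.R972.OP.vs_all Pool.Agent.R972.OP.geo_all
  refine ⟨c, hc, fun n R hn hanti htr => ?_⟩
  have hi := (Pool.Agent.R972.OP.geo_all n R).2.2 htr hanti
  have hcp := (Pool.Agent.R972.OP.geo_all n R).1
  have hco := (Pool.Agent.R972.OP.geo_all n R).2.1
  have hv := Pool.Agent.R972.OP.vpos hi
  refine ⟨⟨hcp, hco, hi⟩, ?_, ?_, ?_⟩
  · intro t ht A hA
    refine H n R hn hi t (fun b => ?_) A hA
    refine ht (Pool.Agent.R972.OP.th n) b ?_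
    intro h0
    have h1 := Pool.Agent.R972.OP.th_norm hn
    rw [h0, norm_zero] at h1
    exact zero_ne_one h1
  · intro A hA
    exact Pool.Agent.R972.OP.sets Pool.Agent.R972.OP.all_all Pool.Agent.R972.OP.geo_all R hi A hA
  · have h := (Pool.Agent.R972.OP.vs_all n R hv).2
    rw [← Pool.Agent.R972.OP.var_eq hcp hv _ Pool.Agent.R972.OP.cont_sum] at h
    exact h

end Pool.Agent.Results.MP_8d00da_gt.OrderPolytopes
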