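import Pool.Agent.R476.OR.Rl

/-!
# The KLS conjecture in Cheeger form for generalised Orlicz balls, at all levels

Q1, in the form of the inequality for sets `A` of measure one half, with an absolute constant, for all
bodies `K = {x ∈ ℝⁿ | ∑_{i < n} V_i(ℓ_i(x)) ≤ E}`, where `ℓ_i` are linear coordinates of `ℝⁿ` and
`V_i : ℝ → [0, ∞]` are arbitrary convex lower semicontinuous functions. No symmetry, no growth
condition and no condition on the level `E` is required. More generally for the images of these
bodies under linear maps with kernels of dimension at most `r`, with a constant which depends only on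
`r`. By the reduction to measure one half quoted in the problem (Sternberg and Zumbrun) this is
`D_Che(λ_K) ≥ c D_Che^Lin(λ_K)` for these bodies.

Kolesnikov and Milman (The KLS isoperimetric conjecture for generalized Orlicz balls, Ann. Probab.
2018) prove this inequality for the Orlicz balls in orthonormal coordinates, at certain levels and
under an assumption on the growth of the `V_i` at infinity, without which they lose a factor
`log (1 + n)`.

Method. Let `V_i` be `C¹` and normalised: after an exponential tilt `exp (-λ V_i)`, with `λ` the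
slope of `s ↦ log |{S ≤ s}|` at `E`, `S(x) = ∑ V_i(x_i)`, and an affine change of each coordinate,
`f_i = exp (-V_i)` are probability densities with mean zero and variance one, and `s = E` maximises
`exp (-s) |{S ≤ s}|`. Put `ρ = ∏ f_i = exp (-S)`, `σ² = 1 + ∑ Var V_i`; then
`exp (-E) |{S ≤ E}| ≥ c / σ` by Chebyshev's inequality. (1) Let `(v_i f_i)' = -(V_i - E V_i) f_i`. By
a Hardy inequality `E v_i² ≤ C Var V_i` and, using the convexity of `V_i`,
`E (V_i' v_i)² ≤ C Var V_i`, while `E V_i' v_i = Var V_i`. Integration by parts with the field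
`v(x) = (v_i(x_i))` and the function `U ψ(S - E)`, `ψ(r) = 1 / (1 + exp (-r))`, gives
`E [U ψ'(S - E) ⟨v, ∇S⟩] = E [U ψ(S - E) (S - E S)] - E [ψ(S - E) ⟨∇U, v⟩]`, in which `⟨v, ∇S⟩` may be
replaced by its mean `∑ Var V_i` with an error of the order `σ`: its fluctuation has second moment
at most `C σ²` because it is a sum of independent variables. So the mean of `U ≥ 0` over `{S ≤ E}`
is at most `C ((E U²)^{1/2} + sup ‖∇U‖ + E U)`: Lipschitz functions which are concentrated for the
product density `ρ` are concentrated on `{S ≤ E}`, on a constant scale and without the loss of a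
factor `log n`. (2) The law of `(⟨θ, x⟩, s)` with density `1[S(x) ≤ s] exp (-s)` is log-concave in the
plane, and `s = E` is its most likely level; two-dimensional estimates give the covariance of the
uniform measure on `{S ≤ E}` up to constants: it is comparable to the identity, reduced in the
direction of the vector `b` of the covariances of `x_i` and `V_i`. For a linear image one replaces a
function by its composition with the projection orthogonal to `b`. So the concentration on a
constant scale, relative to the covariance, holds for all linear images of the uniform measure.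
(3) Approximation of general `V_i`. (4) The images of corank `r`, and the passage from the
concentration of all linear images to the isoperimetric inequality for sets of measure one half, are
those of `ImagesOfSections` (starting files, modules `Y506.PV` and `KH`).

The proofs of the lemmas are by helpers 310, 790, 634, 628, 877, 834, 938, 165, 27, 999, 584 (modules
`R476.OR`, `R634.ORC`, `R834.OR`, `R938.ORF`) and 476.

The halfspace constant bounds the variances because it forces exponential tails of the
one-dimensional marginals (module `Y532.PV.Che` of the starting files).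
-/

set_option autoImplicit false

namespace Pool.Agent.Results.MP_8d00da_gt.OrliczBalls

open MeasureTheory Set
open scoped ENNReal InnerProductSpace

/-- Euclidean space of dimension `n` -/
abbrev Euc (n : ℕ) : Type := EuclideanSpace ℝ (Fin n)

/-- convex lower semicontinuous functions `V : ℝ → [0, ∞]` -/
structure ConvexLSC (V : ℝ → ℝ≥0∞) : Prop where
  lsc : LowerSemicontinuous V
  conv : ∀ x y t : ℝ, 0 < t → t < 1 →
    V ((1 - t) * x + t * y) ≤ ENNReal.ofReal (1 - t) * V x + ENNReal.ofReal t * V y

/-- Generalised Orlicz balls: bounded sets with nonempty interior of the form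
`K = {x ∈ ℝ^m | ∑_{i < m} V_i(x_i) ≤ E}` with convex lower semicontinuous functions
`V_i : ℝ → [0, ∞]`. -/
structure OrliczBall {m : ℕ} (K : Set (Euc m)) : Prop where
  bdd : Bornology.IsBounded K
  int : (interior K).Nonempty
  rep : ∃ (V : Fin m → ℝ → ℝ≥0∞) (E : ℝ≥0∞), (∀ i, ConvexLSC (V i)) ∧
    K = {x | ∑ i, V i (x i) ≤ E}

/-- Minkowski (exterior) boundary measure `μ⁺(A)` -/
noncomputable def bdry {n : ℕ} (μ : Measure (Euc n)) (A : Set (Euc n)) : ℝ≥0∞ :=
  Filter.liminf (fun ε : ℝ => (μ (Metric.thickening ε A) - μ A) / ENNReal.ofReal ε)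
    (nhdsWithin 0 (Set.Ioi 0))

/-- the halfspace `⟪u, x⟫ ≤ b` -/
def halfspace {n : ℕ} (u : Euc n) (b : ℝ) : Set (Euc n) := {x | inner ℝ u x ≤ b}

/-- the uniform probability measure on `K` -/
noncomputable def unif {n : ℕ} (K : Set (Euc n)) : Measure (Euc n) :=
  (volume K)⁻¹ • volume.restrict K

/-- the inequality of Kannan, Lovasz and Simonovits with constant `c` for the uniform measure `μ` on
`K` and sets of measure one half: if `t min(μ H, 1 - μ H) ≤ μ⁺(H)` for all halfspaces `H` then
`c t min(μ A, 1 - μ A) ≤ μ⁺(A)` for all measurable `A` with `μ A = 1/2` -/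
def KLSHalf {n : ℕ} (c : ℝ) (K : Set (Euc n)) : Prop :=
  ∀ t : ℝ≥0∞, (∀ (u : Euc n) (b : ℝ), u ≠ 0 →
      t * min (unif K (halfspace u b)) (1 - unif K (halfspace u b)) ≤
        bdry (unif K) (halfspace u b)) →
    ∀ A : Set (Euc n), MeasurableSet A → unif K A = 1 / 2 →
      ENNReal.ofReal c * t * min (unif K A) (1 - unif K A) ≤ bdry (unif K) A

theorem orl_of {m : ℕ} {K : Set (Euc m)} (h : OrliczBall K) : Pool.Agent.R476.OR.Orl K := by
  obtain ⟨h1, h2, V, E, hV, hK⟩ := h
  exact ⟨h1, h2, V, E, fun i => ⟨(hV i).lsc, (hV i).conv⟩, hK⟩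

theorem orlicz_real {n : ℕ} (V : Fin n → ℝ → ℝ) (E : ℝ) (hV : ∀ i, ConvexOn ℝ univ (V i))
    (hb : Bornology.IsBounded {x : Euc n | ∑ i, V i (x i) ≤ E})
    (hi : (interior {x : Euc n | ∑ i, V i (x i) ≤ E}).Nonempty) :
    OrliczBall {x : Euc n | ∑ i, V i (x i) ≤ E} := by
  obtain ⟨W, F, hW, hK⟩ := Pool.Agent.R476.OR.orl_real V E hV hb hi
  exact ⟨hb, hi, W, F, fun i => ⟨(hW i).lsc, (hW i).conv⟩, hK⟩

/-- the functional inequality for affine images -/
theorem star_of {c : ℝ} {r : ℕ} (H : ∀ (n m : ℕ) (K : Set (Euc m))
    (A : Euc m →ₗ[ℝ] Euc n), 1 ≤ n → m ≤ n + r → Pool.Agent.R476.OR.Orl K →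
    Function.Surjective A → IsCompact (A '' K) ∧ Convex ℝ (A '' K) ∧ (interior (A '' K)).Nonempty ∧
    Pool.Agent.Y506.RG.Star c (Pool.Agent.Y506.PV.ind (A '' K))) {m n : ℕ} {K : Set (Euc m)}
    (T : Euc m →ᵃ[ℝ] Euc n) (hn : 1 ≤ n) (hm : m ≤ n + r) (hK : OrliczBall K)
    (hT : Function.Surjective T) : IsCompact (T '' K) ∧ Convex ℝ (T '' K) ∧
    (interior (T '' K)).Nonempty ∧
    Pool.Agent.Y506.RG.Star c (Pool.Agent.Y506.PV.ind (T '' K)) := by
  have hTL : ∀ x, T x = T.linear x + T 0 := fun x => by
    have h := T.map_vadd 0 x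
    simpa [vadd_eq_add] using h
  have hA : Function.Surjective T.linear := by
    intro y
    obtain ⟨x, hx⟩ := hT (y + T 0)
    refine ⟨x, ?_⟩
    have h := hTL x
    rw [hx] at h
    exact (add_right_cancel h).symm
  obtain ⟨h1, h2, h3, h4⟩ := H n m K T.linear hn hm (orl_of hK) hA
  have he : T '' K = (fun y => y + T 0) '' (T.linear '' K) := by
    rw [image_image]
    exact image_congr fun x _ => hTL x
  have hcp : IsCompact (T '' K) := by
    rw [he]
    exact h1.image (by fun_prop)
  refine ⟨hcp, ?_, ?_, ?_⟩
  · rw [he]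
    have h := h2.translate (T 0)
    have e : (fun y => y + T 0) = fun y => T 0 + y := funext fun y => add_comm _ _
    rw [e]
    exact h
  · rw [he]
    have hop : IsOpen ((fun y => y + T 0) '' interior (T.linear '' K)) :=
      (Homeomorph.addRight (T 0)).isOpenMap _ isOpen_interior
    exact (h3.image _).mono (interior_maximal (image_mono interior_subset) hop)
  · rw [he]
    exact Pool.Agent.Y506.PV.star_trans _ _ (Pool.Agent.Y506.PV.adm_ind _ h1.measurableSet
      h1.isBounded (Pool.Agent.Y506.PV.vol_pos h3)) h4

/-- **KLS (Cheeger form) for generalised Orlicz balls and their projections.** For every `r` there is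
a constant `c > 0` such that for all `n ≥ 1`, all affine maps `T` of `ℝ^m` onto `ℝⁿ`, `m ≤ n + r`, and all
generalised Orlicz balls `K ⊂ ℝ^m`, the body `T '' K` satisfies the inequality of Kannan, Lovasz and
Simonovits with constant `c` for all sets of measure one half. For `r = 0` the constant is absolute,
`T` is an affine bijection and `T '' K = {x | ∑_{i < n} V_i(ℓ_i(x)) ≤ E}` with affine coordinates
`ℓ_i`. -/
theorem result : ∀ r : ℕ, ∃ c : ℝ, 0 < c ∧
    ∀ (m n : ℕ) (K : Set (Euc m)) (T : Euc m →ᵃ[ℝ] Euc n), 1 ≤ n → m ≤ n + r →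
    OrliczBall K → Function.Surjective T → KLSHalf c (T '' K) := by
  intro r
  obtain ⟨c, hc, H⟩ := Pool.Agent.R476.OR.fin_orl r
  obtain ⟨c', hc', H'⟩ := Pool.Agent.Y532.PV.che c hc
  refine ⟨c', hc', fun m n K T hn hm hK hT => ?_⟩
  obtain ⟨h1, h2, h3, h4⟩ := star_of H T hn hm hK hT
  intro t ht A hA hA2
  have hprob : IsProbabilityMeasure (unif (T '' K)) :=
    Pool.Agent.Y506.KS.unif_prob (Pool.Agent.Y506.PV.vol_pos h3) h1.measure_lt_top.ne
  have key := H' n _ h1 h2 h3 h4 (unif (T '' K)) rfl t ht A hA2
  refine le_trans ?_ key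
  calc ENNReal.ofReal c' * t * min (unif (T '' K) A) (1 - unif (T '' K) A)
      ≤ ENNReal.ofReal c' * t * 1 := mul_le_mul_right ((min_le_left _ _).trans prob_le_one) _
    _ = _ := mul_one _

/-- The case of finite convex functions: there is an absolute constant `c > 0` such that for all
`n ≥ 1` and all convex functions `V_i : ℝ → ℝ`, `i < n`, and all `E` for which
`K = {x ∈ ℝⁿ | ∑ V_i(x_i) ≤ E}` is bounded with nonempty interior, `K` satisfies the inequality with
constant `c`. -/
theorem orlicz : ∃ c : ℝ, 0 < c ∧ ∀ (n : ℕ) (V : Fin n → ℝ → ℝ) (E : ℝ), 1 ≤ n →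
    (∀ i, ConvexOn ℝ univ (V i)) → Bornology.IsBounded {x : Euc n | ∑ i, V i (x i) ≤ E} →
    (interior {x : Euc n | ∑ i, V i (x i) ≤ E}).Nonempty →
    KLSHalf c {x : Euc n | ∑ i, V i (x i) ≤ E} := by
  obtain ⟨c, hc, H⟩ := result 0
  refine ⟨c, hc, fun n V E hn hV hb hi => ?_⟩
  have h := H n n _ (AffineMap.id ℝ (Euc n)) hn le_rfl (orlicz_real V E hV hb hi)
    Function.surjective_id
  simpa using h

end Pool.Agent.Results.MP_8d00da_gt.OrliczBalls
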